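import Pool.Agent.H89.FM.Targets2

/-!
# The shape of a lattice of squarefree index
-/

set_option autoImplicit false

namespace Pool.Agent.H76.FM

open Pool.Agent.H31.CN Pool.Agent.H89.FM

theorem det_smul (u w : ℤ × ℤ) (k : ℤ) : det u (k • w) = k * det u w := by
  simp only [det, Prod.smul_fst, Prod.smul_snd, smul_eq_mul]; ring

theorem nr_smul (ρ : ℝ) (w : ℤ × ℤ) (k : ℤ) : nr ρ (k • w) = (k : ℝ) ^ 2 * nr ρ w := by
  simp only [nr, Prod.smul_fst, Prod.smul_snd, smul_eq_mul]; push_cast; ring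

theorem nr_pos {ρ : ℝ} (hρ : 0 < ρ) {w : ℤ × ℤ} (hw : w ≠ 0) : 0 < nr ρ w := by
  unfold nr
  by_cases h : w.1 = 0
  · have h2 : w.2 ≠ 0 := fun h2 => hw (Prod.ext h h2)
    have : (0 : ℝ) < (w.2 : ℝ) ^ 2 := by positivity
    have h3 : (0 : ℝ) ≤ (w.1 : ℝ) ^ 2 / ρ := by positivity
    have h4 : 0 < ρ * (w.2 : ℝ) ^ 2 := by positivity
    linarith
  · have : (0 : ℝ) < (w.1 : ℝ) ^ 2 := by positivity
    have h3 : (0 : ℝ) < (w.1 : ℝ) ^ 2 / ρ := by positivity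
    have h4 : 0 ≤ ρ * (w.2 : ℝ) ^ 2 := by positivity
    linarith

/-- division by the content, with a choice of the sign -/
theorem exists_prim (v : ℤ × ℤ) (hv : v ≠ 0) : ∃ (f : ℕ) (w : ℤ × ℤ), 0 < f ∧
    Int.gcd w.1 w.2 = 1 ∧ (0 < w.2 ∨ w = (1, 0)) ∧ ((f : ℤ) • w = v ∨ (f : ℤ) • w = -v) := by
  have hg : 0 < Int.gcd v.1 v.2 := by
    rcases Nat.eq_zero_or_pos (Int.gcd v.1 v.2) with h | h
    · exact absurd (Prod.ext (Int.gcd_eq_zero_iff.mp h).1 (Int.gcd_eq_zero_iff.mp h).2) hv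
    · exact h
  obtain ⟨a, ha⟩ := Int.gcd_dvd_left (a := v.1) (b := v.2)
  obtain ⟨b, hb⟩ := Int.gcd_dvd_right (a := v.1) (b := v.2)
  set f := Int.gcd v.1 v.2 with hf
  have hgab : Int.gcd a b = 1 := by
    have h1 : f = f * Int.gcd a b := by
      conv_lhs => rw [hf, ha, hb]
      rw [Int.gcd_mul_left]; simp
    have h2 : f * 1 = f * Int.gcd a b := by rw [mul_one]; exact h1
    exact (Nat.eq_of_mul_eq_mul_left hg h2).symm
  have hfab : (f : ℤ) • ((a, b) : ℤ × ℤ) = v := by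
    apply Prod.ext
    · simp only [Prod.smul_fst, smul_eq_mul]; exact ha.symm
    · simp only [Prod.smul_snd, smul_eq_mul]; exact hb.symm
  rcases lt_trichotomy b 0 with hb0 | hb0 | hb0
  · refine ⟨f, (-a, -b), hg, ?_, Or.inl (by simpa using hb0), Or.inr ?_⟩
    · simpa [Int.gcd_neg, Int.neg_gcd] using hgab
    · rw [← hfab]; apply Prod.ext <;> simp
  · subst hb0
    have ha1 : a.natAbs = 1 := by simpa [Int.gcd_zero_right] using hgab
    rcases Int.natAbs_eq_iff.mp ha1 with h | h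
    · refine ⟨f, (1, 0), hg, by simp, Or.inr rfl, Or.inl ?_⟩
      rw [← hfab, h]; simp
    · refine ⟨f, (1, 0), hg, by simp, Or.inr rfl, Or.inr ?_⟩
      rw [← hfab, h]; apply Prod.ext <;> simp
  · exact ⟨f, (a, b), hg, hgab, Or.inl hb0, Or.inl hfab⟩

/-- if `m` divides all multiples by the entries, it divides -/
theorem dvd_of_entries {m : ℕ} {u : ℤ × ℤ} (hu : Nat.Coprime (Int.gcd u.1 u.2) m) {d : ℤ}
    (h1 : (m : ℤ) ∣ d * u.1) (h2 : (m : ℤ) ∣ d * u.2) : (m : ℤ) ∣ d := by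
  have h : (m : ℤ) ∣ d * (Int.gcd u.1 u.2 : ℤ) := by
    rw [Int.gcd_eq_gcd_ab u.1 u.2]
    have : d * (u.1 * Int.gcdA u.1 u.2 + u.2 * Int.gcdB u.1 u.2) =
        d * u.1 * Int.gcdA u.1 u.2 + d * u.2 * Int.gcdB u.1 u.2 := by ring
    rw [this]
    exact dvd_add (Dvd.dvd.mul_right h1 _) (Dvd.dvd.mul_right h2 _)
  have hc : IsCoprime (m : ℤ) (Int.gcd u.1 u.2 : ℤ) :=
    (Nat.isCoprime_iff_coprime.mpr hu).symm
  exact hc.dvd_of_dvd_mul_right h

theorem Lw_eq {m : ℕ} {u w : ℤ × ℤ} (hu : Nat.Coprime (Int.gcd u.1 u.2) m)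
    (hw : Int.gcd w.1 w.2 = 1) (h : (m : ℤ) ∣ det u w) : Lw m u = Lw m w := by
  apply AddSubgroup.ext
  intro v
  change (m : ℤ) ∣ det u v ↔ (m : ℤ) ∣ det w v
  constructor
  · intro hv
    apply dvd_of_entries hu
    · have : det w v * u.1 = det u v * w.1 - det u w * v.1 := by simp only [det]; ring
      rw [this]
      exact dvd_sub (Dvd.dvd.mul_right hv _) (Dvd.dvd.mul_right h _)
    · have : det w v * u.2 = det u v * w.2 - det u w * v.2 := by simp only [det]; ring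
      rw [this]
      exact dvd_sub (Dvd.dvd.mul_right hv _) (Dvd.dvd.mul_right h _)
  · intro hv
    have hw' : Nat.Coprime (Int.gcd w.1 w.2) m := by rw [hw]; exact Nat.coprime_one_left m
    apply dvd_of_entries hw'
    · have : det u v * w.1 = det w v * u.1 + det u w * v.1 := by simp only [det]; ring
      rw [this]
      exact dvd_add (Dvd.dvd.mul_right hv _) (Dvd.dvd.mul_right h _)
    · have : det u v * w.2 = det w v * u.2 + det u w * v.2 := by simp only [det]; ring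
      rw [this]
      exact dvd_add (Dvd.dvd.mul_right hv _) (Dvd.dvd.mul_right h _)

/-- (SHP) the shape of a lattice. -/
theorem pf_SHP (hFLS : T_FLS) (hGEN : T_GEN) (hCRT : T_CRT) (hMIN : T_MIN) : T_SHP := by
  intro ρ n L hρ hn hL
  have hn0 : n ≠ 0 := hn.ne_zero
  have hn1 : 1 ≤ n := Nat.one_le_iff_ne_zero.mpr hn0
  obtain ⟨v0, hv0, hne, hnr, hmin, hle⟩ := hMIN ρ n L hρ hn1 hL
  obtain ⟨f, w, hf, hprim, hsgn, hfw⟩ := exists_prim v0 hne
  have hfwL : (f : ℤ) • w ∈ L := by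
    rcases hfw with h | h
    · rw [h]; exact hv0
    · rw [h]; exact L.neg_mem hv0
  have hw0 : w ≠ 0 := by
    rintro rfl
    simp at hprim
  have hnrw : 0 < nr ρ w := nr_pos hρ hw0
  have hmn : (f : ℝ) ^ 2 * nr ρ w = mn ρ L := by
    rw [← hnr]
    have h1 : nr ρ ((f : ℤ) • w) = (f : ℝ) ^ 2 * nr ρ w := by rw [nr_smul]; push_cast; ring
    rw [← h1]
    rcases hfw with h | h
    · rw [h]
    · rw [h]
      have := nr_smul ρ v0 (-1)
      simpa using this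
  have hnw : (n : ℤ) • w ∈ L := (hFLS n L hn1).2 hL w
  -- Bezout
  have hgL : ((Nat.gcd f n : ℕ) : ℤ) • w ∈ L := by
    have hb := Nat.gcd_eq_gcd_ab f n
    rw [hb, add_smul]
    apply L.add_mem
    · rw [mul_comm, mul_smul]; exact L.zsmul_mem hfwL _
    · rw [mul_comm, mul_smul]; exact L.zsmul_mem hnw _
  have hgpos : 0 < Nat.gcd f n := Nat.gcd_pos_of_pos_left _ hf
  have hgne : ((Nat.gcd f n : ℕ) : ℤ) • w ≠ 0 := by
    intro h
    rcases smul_eq_zero.mp h with h | h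
    · have : Nat.gcd f n = 0 := by exact_mod_cast h
      omega
    · exact hw0 h
  have h1 := hmin _ hgL hgne
  rw [← hmn, nr_smul] at h1
  have h2 : (f : ℝ) ^ 2 ≤ ((Nat.gcd f n : ℕ) : ℝ) ^ 2 := by
    have : (((Nat.gcd f n : ℕ) : ℤ) : ℝ) = ((Nat.gcd f n : ℕ) : ℝ) := by norm_cast
    rw [this] at h1
    exact le_of_mul_le_mul_right h1 hnrw
  have h3 : f ≤ Nat.gcd f n := by
    have h4 : (f : ℝ) ≤ ((Nat.gcd f n : ℕ) : ℝ) := by
      exact (sq_le_sq₀ (by positivity) (by positivity)).mp h2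
    exact_mod_cast h4
  have h4 : Nat.gcd f n = f := le_antisymm (Nat.le_of_dvd hf (Nat.gcd_dvd_left f n)) h3
  have hfn : f ∣ n := by rw [← h4]; exact Nat.gcd_dvd_right f n
  obtain ⟨m, hm⟩ := hfn
  have hm0 : m ≠ 0 := by rintro rfl; simp at hm; exact hn0 hm
  have hm1 : 1 ≤ m := Nat.one_le_iff_ne_zero.mpr hm0
  have hcop : Nat.Coprime f m := by
    rw [hm] at hn
    exact Nat.coprime_of_squarefree_mul hn
  have hmsq : Squarefree m := by
    rw [hm] at hn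
    exact hn.of_mul_right
  have hLfm : L ∈ Ls (f * m) := by rw [← hm]; exact hL
  obtain ⟨L', hL', L'', hL'', hLL⟩ := (hCRT f m hf hm1 hcop).2.1 L hLfm
  obtain ⟨u, hu, hLu⟩ := hGEN.2 m L'' hmsq hL''
  have hfw2 : (f : ℤ) • w ∈ Lw m u := by
    have : (f : ℤ) • w ∈ L' ⊓ L'' := by rw [← hLL]; exact hfwL
    rw [← hLu]; exact this.2
  have hdet : (m : ℤ) ∣ det u w := by
    change (m : ℤ) ∣ det u ((f : ℤ) • w) at hfw2
    rw [det_smul] at hfw2
    have hc : IsCoprime (m : ℤ) (f : ℤ) := (Nat.isCoprime_iff_coprime.mpr hcop).symm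
    exact hc.dvd_of_dvd_mul_left hfw2
  refine ⟨f, m, L', w, hm, hL', ?_, hprim, hsgn, hmn, ?_⟩
  · rw [hLL, hLu, Lw_eq hu hprim hdet]
  · have hle2 : (f : ℝ) ^ 2 * nr ρ w ≤ 2 * (f * m : ℕ) := by rw [hmn, ← hm]; exact hle
    push_cast at hle2
    have hfR : (0 : ℝ) < f := by exact_mod_cast hf
    have : (f : ℝ) * ((f : ℝ) * nr ρ w) ≤ f * (2 * m) := by nlinarith
    exact le_of_mul_le_mul_left this hfR

end Pool.Agent.H76.FM
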